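import Pool.Agent.W399.WP.Final

/-!
# Cancellative semigroups with context-free word problem (MP_dd8e80_al, Q1)

For a cancellative semigroup `S`, a finite set `A` and a map `φ : A → S`, if the word problem
`{u # v^rev : u, v nonempty words over A with the same value in S}` is a context-free language,
then it is a deterministic context-free language.

The proof. From a grammar for the word problem one extracts a finite set of states; a state `x`
has completions `(U, V)`, and by cancellation every piece of a derivation tree off the spine (the
path to the letter `#`) has a fixed value, so the pieces have values in a finite set `E`. The
automaton first reads `u` and stores it as a stack of blocks, geodesic words of bounded length, by
merging blocks at the top as long as the norm stays bounded; by cancellation, a piece which crosses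
a boundary between blocks is short below the boundary. So every word for the value of `u` passes,
at every level of the stack, one of boundedly many nodes. While reading `v` backwards, the
automaton keeps the value `σ` with `x σ = r`, where `x` is the value still to be read and `r` the
reference of the top layer: a layer is a finite set of values through which every word for `x`
passes. When `σ` becomes long a new layer is inserted, when `x` reaches a layer the layer is
removed.
-/

set_option autoImplicit false

universe u

namespace Pool.Agent.Results.MP_dd8e80_al.CancellativeDCF

open Pool.Agent.W399.WP

/-- If the word problem of a cancellative semigroup is context-free, then it is deterministic
context-free. -/
theorem result (S : Type u) [Semigroup S] [IsCancelMul S] (A : Type) [Finite A] (φ : A → S)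
    (h : (WordProblem φ).IsContextFree) : IsDCF (WordProblem φ) :=
  main φ h

end Pool.Agent.Results.MP_dd8e80_al.CancellativeDCF
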